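import Mathlib
import Pool.Agent.Lib.helper15.PropS

open Filter Topology
open scoped Matrix.Norms.Operator BoundedContinuousFunction

namespace Pool.Agent.Results.MP_a0c03c_an.Counter

/-- A^2, the linear span of all products -/
def sq (A : Type) [NonUnitalNormedRing A] [NormedSpace ℂ A] : Submodule ℂ A :=
  Submodule.span ℂ {x | ∃ a b : A, x = a * b}

/-- property (S) -/
def PropS (A : Type) [NonUnitalNormedRing A] [NormedSpace ℂ A] : Prop :=
  ∃ C : ℝ, 0 < C ∧ ∀ x ∈ sq A, ∃ (n : ℕ) (a b : Fin n → A),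
    x = ∑ i, a i * b i ∧ ∑ i, ‖a i‖ * ‖b i‖ ≤ C * ‖x‖

/-- the Jacobson radical of A: the elements of A in the Jacobson radical of the unitization -/
def rad (A : Type) [NonUnitalNormedRing A] [NormedSpace ℂ A] [IsScalarTower ℂ A A]
    [SMulCommClass ℂ A A] : Set A :=
  {a | (a : Unitization ℂ A) ∈ Ideal.jacobson (⊥ : Ideal (Unitization ℂ A))}

open Pool.Agent.Lib.helper15.PropS

noncomputable instance : NormedSpace ℂ AS where
  norm_smul_le c a := norm_smul_le c a.1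

lemma sq_rep {A : Type} [NonUnitalNormedRing A] [NormedSpace ℂ A] [IsScalarTower ℂ A A] {x : A}
    (hx : x ∈ sq A) : ∃ (n : ℕ) (a b : Fin n → A), x = ∑ i, a i * b i := by
  obtain ⟨n, f, g, h⟩ := Submodule.mem_span_set'.1 hx
  choose a b hab using fun i => (g i).2
  exact ⟨n, fun i => f i • a i, b, by simp [← h, hab, smul_mul_assoc]⟩

lemma rep_fin {A : Type} [NonUnitalNormedRing A] {ι : Type} [Fintype ι] (a b : ι → A) {x : A}
    {c : ℝ} (h1 : x = ∑ i, a i * b i) (h2 : ∑ i, ‖a i‖ * ‖b i‖ ≤ c) :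
    ∃ (n : ℕ) (a b : Fin n → A), x = ∑ i, a i * b i ∧ ∑ i, ‖a i‖ * ‖b i‖ ≤ c := by
  refine ⟨_, a ∘ (Fintype.equivFin ι).symm, b ∘ (Fintype.equivFin ι).symm, ?_, ?_⟩
  · rw [h1]; exact ((Fintype.equivFin ι).symm.sum_comp fun i => a i * b i).symm
  · exact ((Fintype.equivFin ι).symm.sum_comp fun i => ‖a i‖ * ‖b i‖).trans_le h2

noncomputable def rho : AS := iN rN

lemma rho2 : rho.1.2 = 0 := by ext1 i; exact th_r i.1

lemma mul_rho (a : AS) : a * rho = 0 := by
  refine Subtype.ext (Prod.ext (N.ext rfl fun n => smul_zero (a.1.1.1 n)) ?_)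
  change a.1.2 * rho.1.2 = 0
  rw [rho2, mul_zero]

noncomputable def ev (i : I) : AS →ₙₐ[ℂ] E where
  toFun a := a.1.2 i
  map_smul' _ _ := rfl
  map_zero' := rfl
  map_add' _ _ := rfl
  map_mul' _ _ := rfl

open Classical in
noncomputable def bump (i : I) (S : E) : I →ᵇ E :=
  BoundedContinuousFunction.ofNormedAddCommGroupDiscrete (fun j => if j = i then S else 0) ‖S‖
    (fun j => by split_ifs <;> simp)

lemma van_bump (i : I) (S : E) : Van (bump i S) := by
  refine tendsto_const_nhds.congr' ?_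
  have : ∀ᶠ j : I in F, i.2 < j.2 := (eventually_gt_atTop i.2).comap Prod.snd |>.mono fun _ h => h
  filter_upwards [this] with j hj
  have : j ≠ i := fun h => by simp [h] at hj
  simp [bump, this]

lemma mat_zero (M : E) (h : ∀ S : E, ∃ W : E, W * S * M + W - 1 = 0) : M = 0 := by
  ext p q
  by_contra hpq
  have hne : M p q ≠ 0 := hpq
  obtain ⟨W, hW⟩ := h (Matrix.single q p (-(M p q)⁻¹))
  have h5 := congrFun (congrFun hW q) q
  simp only [Matrix.sub_apply, Matrix.add_apply, Matrix.mul_apply, Matrix.one_apply_eq,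
    Matrix.zero_apply, Matrix.single, Matrix.of_apply] at h5
  simp [ite_and, Finset.sum_ite_eq, hne, mul_assoc] at h5

lemma rad_eq : rad AS = (Submodule.span ℂ {rho} : Submodule ℂ AS) := by
  ext a
  simp only [rad, Set.mem_ofPred_eq, Ideal.mem_jacobson_iff, SetLike.mem_coe,
    Submodule.mem_span_singleton, Submodule.mem_bot, Ideal.mem_bot]
  constructor
  · intro h
    have h1 : ∀ i, a.1.2 i = 0 := fun i => by
      refine mat_zero _ fun S => ?_
      obtain ⟨z, hz⟩ := h (iD (bump i S) (van_bump _ _) : AS)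
      have h2 := congrArg (Unitization.lift (ev i)) hz
      have e : ∀ b : AS, Unitization.lift (ev i) (b : Unitization ℂ AS) = b.1.2 i := fun b => by
        simp; rfl
      have h3 : (iD (bump i S) (van_bump _ _)).1.2 i = S := by
        change bump i _ i = _
        simp [bump]
      rw [map_sub, map_add, map_mul, map_mul, map_one, map_zero, e, e, h3] at h2
      exact ⟨_, h2⟩
    have h2 : ∀ k, th k a.1.1 = 0 := fun k => by
      have h3 : Tendsto (fun j : ℕ => (k, j)) atTop F := tendsto_comap_iff.2 tendsto_id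
      have h4 := (show Van (a.1.2 - Th a.1.1) from a.2).comp h3
      have h5 : (⇑(a.1.2 - Th a.1.1) ∘ fun j : ℕ => (k, j)) = fun _ => -th k a.1.1 := by
        funext j; simp [h1]
      rw [h5] at h4
      exact neg_eq_zero.1 (tendsto_nhds_unique tendsto_const_nhds h4)
    refine ⟨a.1.1.2 0 0, Subtype.ext (Prod.ext (ker_th _ h2).symm ?_)⟩
    change _ • rho.1.2 = _
    rw [rho2, smul_zero]
    ext1 i; exact (h1 i).symm
  · rintro ⟨c, rfl⟩ y
    have h1 : y * ((c • rho : AS) : Unitization ℂ AS) = ((y.fst • c • rho : AS) : _) := by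
      refine Unitization.ext ?_ ?_
      · simp
      · simp [mul_smul_comm, mul_rho]
    refine ⟨1 - y * ((c • rho : AS) : Unitization ℂ AS), ?_⟩
    have h2 : (y * ((c • rho : AS) : Unitization ℂ AS)) * (y * ((c • rho : AS) : _)) = 0 := by
      rw [h1, ← Unitization.inr_mul, mul_smul_comm, mul_smul_comm, mul_rho]
      simp
    rw [mul_assoc, sub_mul, h2]
    simp

lemma iN_val (p : N) : (iN p).1 = (p, Th p) := rfl

lemma iN_zero : iN 0 = 0 := by
  apply Subtype.ext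
  rw [iN_val, map_zero, ZeroMemClass.coe_zero]; rfl

lemma iN_add (p q : N) : iN (p + q) = iN p + iN q := by
  apply Subtype.ext
  rw [AddMemClass.coe_add, iN_val, iN_val, iN_val, map_add, Prod.mk_add_mk]

noncomputable def iL : N →+ AS where
  toFun := iN
  map_zero' := iN_zero
  map_add' := iN_add

noncomputable def nX (x : X) : N := ((x, 0) : X × Z)
noncomputable def nZ : Z →+ N where
  toFun t := ((0, t) : X × Z)
  map_zero' := rfl
  map_add' s t := N.ext (add_zero 0).symm fun _ => rfl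

lemma norm_nX (x : X) : ‖nX x‖ = ‖x‖ := by
  change max ‖x‖ ‖(0 : Z)‖ = _
  simp

lemma norm_nZ (t : Z) : ‖nZ t‖ = ‖t‖ := by
  change max ‖(0 : X)‖ ‖t‖ = _
  simp

lemma nX_mul (x y : X) : iN (nX x) * iN (nX y) = iL (nZ (tens x y)) := iN_mul _ _

noncomputable def pN : AS →+ N where
  toFun a := a.1.1
  map_zero' := rfl
  map_add' _ _ := rfl

lemma pN_sum {n : ℕ} (a b : Fin n → AS) :
    pN (∑ i, a i * b i) = nZ (∑ i, tens (a i).1.1.1 (b i).1.1.1) := by
  rw [map_sum, map_sum]; rfl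

lemma sum_apply {Y ι : Type} [NormedAddCommGroup Y] (s : Finset ι)
    (f : ι → lp (fun _ : ℕ => Y) 1) (n : ℕ) : (∑ i ∈ s, f i) n = ∑ i ∈ s, f i n := by
  rw [lp.coeFn_sum, Finset.sum_apply]

noncomputable def tr {Y : Type} [NormedAddCommGroup Y] (M : ℕ) (u : lp (fun _ : ℕ => Y) 1) :
    lp (fun _ : ℕ => Y) 1 := ∑ n ∈ Finset.range M, lp.single 1 n (u n)

lemma tr_apply {Y : Type} [NormedAddCommGroup Y] (M : ℕ) (u : lp (fun _ : ℕ => Y) 1) (n : ℕ) :
    tr M u n = if n < M then u n else 0 := by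
  rw [tr, sum_apply]
  simp [lp.single_apply, Pi.single_apply]

lemma tr_tendsto {Y : Type} [NormedAddCommGroup Y] [CompleteSpace Y]
    (u : lp (fun _ : ℕ => Y) 1) : Tendsto (fun M => ‖u - tr M u‖) atTop (𝓝 0) := by
  have := (lp.hasSum_single (by simp) u).tendsto_sum_nat
  simpa [tr] using ((tendsto_const_nhds (x := u)).sub this).norm

lemma factor (g : I →ᵇ E) (hg : Van g) :
    ∃ s h : AS, iD g hg = s * h ∧ ‖s‖ * ‖h‖ ≤ ‖g‖ := by
  have b1 : ∀ i, ‖((Real.sqrt ‖g i‖ : ℝ) : ℂ) • (1 : E)‖ = Real.sqrt ‖g i‖ := fun i => by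
    simp [norm_smul]
  have b2 : ∀ i, ‖((Real.sqrt ‖g i‖ : ℝ) : ℂ)⁻¹ • g i‖ = Real.sqrt ‖g i‖ := fun i => by
    rw [norm_smul, norm_inv, Complex.norm_real, Real.norm_of_nonneg (Real.sqrt_nonneg _),
      inv_mul_eq_div, Real.div_sqrt]
  have b3 : ∀ i, Real.sqrt ‖g i‖ ≤ Real.sqrt ‖g‖ := fun i =>
    Real.sqrt_le_sqrt (g.norm_coe_le_norm i)
  have b4 : Tendsto (fun i => Real.sqrt ‖g i‖) F (𝓝 0) := by
    simpa using (tendsto_zero_iff_norm_tendsto_zero.1 hg).sqrt
  let s : I →ᵇ E := BoundedContinuousFunction.ofNormedAddCommGroupDiscrete _ _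
    fun i => (b1 i).trans_le (b3 i)
  let h : I →ᵇ E := BoundedContinuousFunction.ofNormedAddCommGroupDiscrete _ _
    fun i => (b2 i).trans_le (b3 i)
  have hs : Van s := squeeze_zero_norm (fun i => (b1 i).le) b4
  have hh : Van h := squeeze_zero_norm (fun i => (b2 i).le) b4
  have ns : ‖iD s hs‖ ≤ Real.sqrt ‖g‖ := by
    change max ‖(0 : N)‖ ‖s‖ ≤ _
    rw [norm_zero]
    exact max_le (Real.sqrt_nonneg _) ((BoundedContinuousFunction.norm_le
      (Real.sqrt_nonneg _)).2 fun i => (b1 i).trans_le (b3 i))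
  have nh : ‖iD h hh‖ ≤ Real.sqrt ‖g‖ := by
    change max ‖(0 : N)‖ ‖h‖ ≤ _
    rw [norm_zero]
    exact max_le (Real.sqrt_nonneg _) ((BoundedContinuousFunction.norm_le
      (Real.sqrt_nonneg _)).2 fun i => (b2 i).trans_le (b3 i))
  refine ⟨iD s hs, iD h hh, Subtype.ext (Prod.ext (mul_zero (0 : N)).symm ?_), ?_⟩
  · ext1 i
    change g i = (((Real.sqrt ‖g i‖ : ℝ) : ℂ) • (1 : E)) * (((Real.sqrt ‖g i‖ : ℝ) : ℂ)⁻¹ • g i)
    by_cases h0 : g i = 0
    · simp [h0]
    · have : ((Real.sqrt ‖g i‖ : ℝ) : ℂ) ≠ 0 := by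
        simpa [Real.sqrt_eq_zero'] using h0
      rw [smul_mul_assoc, one_mul, smul_smul, mul_inv_cancel₀ this, one_smul]
  · calc _ ≤ Real.sqrt ‖g‖ * Real.sqrt ‖g‖ := by gcongr
      _ = _ := Real.mul_self_sqrt (norm_nonneg _)

lemma C0_nonneg : 0 ≤ C0 := by unfold C0; positivity

lemma propS : PropS AS := by
  have hC := C0_nonneg
  refine ⟨2 * (C0 + 1) ^ 2 + (C0 + 1), by positivity, fun x hx => ?_⟩
  by_cases hx0 : x = 0
  · exact ⟨0, Fin.elim0, Fin.elim0, by simp [hx0], by simp [hx0]⟩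
  have hxp : 0 < ‖x‖ := norm_pos_iff.2 hx0
  obtain ⟨m, a, b, hab⟩ := sq_rep hx
  set u : Fin m → X := fun i => (a i).1.1.1
  set v : Fin m → X := fun i => (b i).1.1.1
  set t : Z := ∑ i, tens (u i) (v i) with ht
  have hxt : x.1.1 = nZ t := hab ▸ pN_sum a b
  have hn1 : ‖x.1.1‖ ≤ ‖x‖ := norm_fst_le x.1
  have hn2 : ‖x.1.2‖ ≤ ‖x‖ := norm_snd_le x.1
  have htx : ‖t‖ ≤ ‖x‖ := by rw [← norm_nZ, ← hxt]; exact hn1
  obtain ⟨M, hM⟩ : ∃ M, ∑ i, ‖u i - tr M (u i)‖ * ‖v i‖ < ‖x‖ := by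
    have : Tendsto (fun M => ∑ i, ‖u i - tr M (u i)‖ * ‖v i‖) atTop (𝓝 (∑ i, 0 * ‖v i‖)) :=
      tendsto_finsetSum _ fun i _ => (tr_tendsto (u i)).mul_const _
    exact (this.eventually (gt_mem_nhds (by simpa using hxp))).exists
  obtain ⟨s, h, hsh, hn⟩ := factor (x.1.2 - Th x.1.1) x.2
  have hg : ‖x.1.2 - Th x.1.1‖ ≤ (C0 + 1) * ‖x‖ := by
    have : ‖Th x.1.1‖ ≤ C0 * ‖x.1.1‖ :=
      (BoundedContinuousFunction.norm_le (by positivity)).2 fun i => th_le i.1 _
    have h2 := norm_sub_le x.1.2 (Th x.1.1)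
    nlinarith
  have hdec : t = ∑ n : Fin M, tens (lp.single 1 n.1 1) (t n) +
      ∑ i, tens (u i - tr M (u i)) (v i) := by
    refine lp.ext (funext fun n => ?_)
    have e : t n = ∑ i, u i n • v i := by rw [ht, sum_apply]; rfl
    have e1 : (∑ k : Fin M, tens (lp.single 1 k.1 1) (t k)) n = if n < M then t n else 0 := by
      rw [sum_apply, Fin.sum_univ_eq_sum_range (fun k => tens (lp.single 1 k 1) (t k) n) M]
      simp [lp.single_apply, Pi.single_apply]
    have e2 : (∑ i, tens (u i - tr M (u i)) (v i)) n = if n < M then 0 else t n := by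
      rw [sum_apply, e]
      split_ifs with hnM <;> simp [tr_apply, hnM]
    rw [lp.coeFn_add, Pi.add_apply, e1, e2]
    split_ifs <;> simp
  refine rep_fin (ι := (Fin M ⊕ Fin m) ⊕ Unit)
    (Sum.elim (Sum.elim (fun n => iN (nX (lp.single 1 n.1 1))) fun i => iN (nX (u i - tr M (u i))))
      fun _ => s)
    (Sum.elim (Sum.elim (fun n => iN (nX (t n))) fun i => iN (nX (v i))) fun _ => h) ?_ ?_
  · simp only [Fintype.sum_sum_type, Sum.elim_inl, Sum.elim_inr, nX_mul, Finset.univ_unique,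
      Finset.sum_singleton, ← map_sum, ← map_add, ← hdec, ← hsh, ← hxt]
    refine Subtype.ext (Prod.ext (add_zero _).symm ?_)
    change x.1.2 = Th x.1.1 + (x.1.2 - Th x.1.1)
    abel
  · simp only [Fintype.sum_sum_type, Sum.elim_inl, Sum.elim_inr, Finset.univ_unique,
      Finset.sum_singleton]
    have k : ∀ p q : X, ‖iN (nX p)‖ * ‖iN (nX q)‖ ≤ (C0 + 1) ^ 2 * (‖p‖ * ‖q‖) := fun p q => by
      have h1 := norm_iN (nX p)
      have h2 := norm_iN (nX q)
      rw [norm_nX] at h1 h2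
      calc _ ≤ ((C0 + 1) * ‖p‖) * ((C0 + 1) * ‖q‖) := by gcongr
        _ = _ := by ring
    have k1 : ∑ n : Fin M, ‖iN (nX (lp.single 1 n.1 1))‖ * ‖iN (nX (t n))‖ ≤
        (C0 + 1) ^ 2 * ‖x‖ := by
      refine (Finset.sum_le_sum fun n _ => k _ _).trans ?_
      rw [← Finset.mul_sum]
      gcongr
      refine le_trans ?_ htx
      simp only [lp.norm_single (show (0 : ENNReal) < 1 by simp), norm_one, one_mul]
      rw [Fin.sum_univ_eq_sum_range (fun k => ‖t k‖) M, norm_eq t]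
      exact (summ t).sum_le_tsum _ fun _ _ => norm_nonneg _
    have k2 : ∑ i, ‖iN (nX (u i - tr M (u i)))‖ * ‖iN (nX (v i))‖ ≤ (C0 + 1) ^ 2 * ‖x‖ := by
      refine (Finset.sum_le_sum fun n _ => k _ _).trans ?_
      rw [← Finset.mul_sum]
      gcongr
    nlinarith

lemma rank_arg {m : ℕ} (k : ℕ) (u v : Fin m → X) (c : ℂ)
    (h : ∀ n n', k ≤ n → ∑ i, u i n * v i n' = c * r0 n n') : c = 0 := by
  by_contra hc
  let P : Matrix (Fin (m + 1)) (Fin m) ℂ := fun n i => u i (k + n)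
  let Q : Matrix (Fin m) (Fin (m + 1)) ℂ := fun i n => v i (k + n)
  have e : P * Q = Matrix.diagonal fun n : Fin (m + 1) => c * (1 / 2) ^ (k + n.1) := by
    ext n n'
    rw [Matrix.mul_apply]
    refine (h _ _ (Nat.le_add_right k n)).trans ?_
    rw [r0_apply, Matrix.diagonal_apply]
    by_cases hn : n = n'
    · simp [hn]
    · have : n'.1 ≠ n.1 := fun h => hn (Fin.ext h.symm)
      simp [hn, this]
  have h1 : (P * Q).rank ≤ m := (Matrix.rank_mul_le_left P Q).trans (by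
    simpa using Matrix.rank_le_card_width P)
  have h2 : IsUnit (P * Q) := by
    rw [e, Matrix.isUnit_iff_isUnit_det, Matrix.det_diagonal, isUnit_iff_ne_zero]
    exact Finset.prod_ne_zero_iff.2 fun n _ => mul_ne_zero hc (pow_ne_zero _ (by norm_num))
  rw [Matrix.rank_of_isUnit _ h2] at h1
  simp at h1

theorem result : ∃ (A : Type) (_ : NonUnitalNormedRing A) (_ : NormedSpace ℂ A)
    (_ : IsScalarTower ℂ A A) (_ : SMulCommClass ℂ A A) (_ : CompleteSpace A),
    (∃ R : Submodule ℂ A, FiniteDimensional ℂ R ∧ rad A = R) ∧ PropS A ∧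
    ∀ (B : Type) [NonUnitalNormedRing B] [NormedSpace ℂ B] (π : A →ₙₐ[ℂ] B),
      Function.Surjective π → (∀ a, π a = 0 ↔ a ∈ rad A) →
      (∀ a, ‖π a‖ = Metric.infDist a (rad A)) → ¬ PropS B := by
  refine ⟨AS, inferInstance, inferInstance, inferInstance, inferInstance, inferInstance,
    ⟨_, inferInstance, rad_eq⟩, propS, ?_⟩
  rintro B _ _ π hs hk hn ⟨C, hC, h⟩
  have hC0 := C0_nonneg
  rw [rad_eq] at hk hn
  obtain ⟨k, hk1, hk2⟩ : ∃ k, 0 < k ∧ C * ((C0 + 1) * ‖r0 - tr k r0‖) < 1 := by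
    have := ((tr_tendsto r0).const_mul (C0 + 1)).const_mul C
    exact ((eventually_gt_atTop 0).and (this.eventually (gt_mem_nhds (by simp)))).exists
  have hy : iL (nZ (tr k r0)) = ∑ n ∈ Finset.range k,
      iN (nX (lp.single 1 n 1)) * iN (nX (r0 n)) := by
    simp only [nX_mul, ← map_sum, tr]
    congr 2
    refine Finset.sum_congr rfl fun n _ => lp.ext (funext fun j => ?_)
    simp only [tens_apply, lp.single_apply, Pi.single_apply]
    split_ifs with hj <;> simp [hj]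
  have hmem : π (iL (nZ (tr k r0))) ∈ sq B := by
    rw [hy, map_sum]
    exact Submodule.sum_mem _ fun n _ => Submodule.subset_span ⟨_, _, map_mul π _ _⟩
  obtain ⟨m, a', b', h1, h2⟩ := h _ hmem
  choose a ha using fun i => hs (a' i)
  choose b hb using fun i => hs (b' i)
  have h3 : π (∑ i, a i * b i - iL (nZ (tr k r0))) = 0 := by
    rw [map_sub, h1, map_sum]; simp [ha, hb]
  obtain ⟨c, hc⟩ := Submodule.mem_span_singleton.1 ((hk _).1 h3)
  have h4 : ∀ n n', ∑ i, (a i).1.1.1 n * (b i).1.1.1 n' - tr k r0 n n' = c * r0 n n' := by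
    intro n n'
    have e := congrArg pN hc
    rw [map_sub, pN_sum] at e
    have e2 : c • r0 = ∑ i, tens (a i).1.1.1 (b i).1.1.1 - tr k r0 := congrArg Prod.snd e
    have e3 : (c • r0) n n' = c * r0 n n' := rfl
    rw [← e3, e2, lp.coeFn_sub, Pi.sub_apply, lp.coeFn_sub, Pi.sub_apply, sum_apply, sum_apply]
    rfl
  have hc0 : c = 0 := rank_arg k (fun i => (a i).1.1.1) (fun i => (b i).1.1.1) c
    fun n n' hkn => by
      rw [← h4, tr_apply, if_neg (by omega)]; simp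
  have h5 := h4 0 0
  rw [hc0, zero_mul, tr_apply, if_pos hk1, r0_apply, if_pos rfl, pow_zero, sub_eq_zero] at h5
  have lb : ∀ x : AS, ‖x.1.1.1 0‖ ≤ ‖π x‖ := fun x => by
    rw [hn, Metric.le_infDist ⟨0, Submodule.zero_mem _⟩]
    intro y hy
    obtain ⟨d, rfl⟩ := Submodule.mem_span_singleton.1 hy
    rw [dist_eq_norm]
    refine (app_le _ 0).trans (le_trans ?_ ((norm_fst_le (E := X) (F := Z) (x - d • rho).1.1).trans
      (norm_fst_le (x - d • rho).1)))
    change _ ≤ ‖x.1.1.1 - d • (0 : X)‖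
    simp
  have ub : ‖π (iL (nZ (tr k r0)))‖ ≤ (C0 + 1) * ‖r0 - tr k r0‖ := by
    rw [hn]
    refine (Metric.infDist_le_dist_of_mem (Submodule.mem_span_singleton_self rho)).trans ?_
    rw [dist_comm, dist_eq_norm, show rho = iL (nZ r0) from rfl, ← map_sub, ← map_sub,
      ← norm_nZ]
    exact norm_iN _
  have h6 : (1 : ℝ) ≤ ∑ i, ‖a' i‖ * ‖b' i‖ := by
    calc (1 : ℝ) = ‖∑ i, (a i).1.1.1 0 * (b i).1.1.1 0‖ := by rw [h5, norm_one]
      _ ≤ ∑ i, ‖(a i).1.1.1 0 * (b i).1.1.1 0‖ := norm_sum_le _ _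
      _ ≤ _ := Finset.sum_le_sum fun i _ => by
        rw [norm_mul, ← ha, ← hb]
        exact mul_le_mul (lb _) (lb _) (norm_nonneg _) (norm_nonneg _)
  have := mul_le_mul_of_nonneg_left ub hC.le
  linarith

end Pool.Agent.Results.MP_a0c03c_an.Counter
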